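import Pool.Agent.Y262.EX.Stm

/-!
# Project EX (helper262), job DISC (helper837)

The group acts properly discontinuously on the strip.
-/

set_option autoImplicit false

open Set Filter Topology MeasureTheory
open scoped ContDiff ComplexConjugate Real

namespace Pool.Agent.Y837.EX

open Pool.Agent.Y262.EX

theorem disc_W_cont : Continuous W := by
  unfold W
  fun_prop

theorem disc_fin (N : ℝ) : {γ : Gq | |m11 γ| ≤ N ∧ |m12 γ| ≤ N ∧ |m21 γ| ≤ N ∧ |m22 γ| ≤ N}.Finite := by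
  have hinj : Function.Injective (fun γ : Gq => (γ.a, γ.b, γ.c, γ.d)) := by
    intro x y h
    simp only [Prod.mk.injEq] at h
    obtain ⟨h1, h2, h3, h4⟩ := h
    ext <;> assumption
  have hF : (Icc (-⌈N⌉) ⌈N⌉ ×ˢ (Icc (-⌈N⌉) ⌈N⌉ ×ˢ (Icc (-⌈N⌉) ⌈N⌉ ×ˢ Icc (-⌈N⌉) ⌈N⌉)) :
      Set (ℤ × ℤ × ℤ × ℤ)).Finite :=
    (finite_Icc _ _).prod ((finite_Icc _ _).prod ((finite_Icc _ _).prod (finite_Icc _ _)))
  refine (hF.preimage hinj.injOn).subset ?_
  rintro γ ⟨h11, h12, h21, h22⟩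
  have h3 : (1 : ℝ) ≤ Real.sqrt 3 := by
    rw [show (1 : ℝ) = Real.sqrt 1 by simp]
    exact Real.sqrt_le_sqrt (by norm_num)
  rw [abs_le] at h11 h12 h21 h22
  unfold m11 at h11
  unfold m12 at h12
  unfold m21 at h21
  unfold m22 at h22
  have hN : 0 ≤ N := by linarith [h11.1, h11.2]
  have key : ∀ (x : ℤ), -N ≤ 2 * Real.sqrt 3 * x → 2 * Real.sqrt 3 * x ≤ N → |(x : ℝ)| ≤ N := by
    intro x h1 h2
    have h4 : |2 * Real.sqrt 3 * (x : ℝ)| ≤ N := abs_le.2 ⟨h1, h2⟩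
    rw [abs_mul, abs_of_pos (by positivity)] at h4
    nlinarith [abs_nonneg (x : ℝ)]
  have conv : ∀ (x : ℤ), |(x : ℝ)| ≤ N → x ∈ Icc (-⌈N⌉) ⌈N⌉ := by
    intro x hx
    rw [abs_le] at hx
    constructor
    · have : (-x : ℝ) ≤ ⌈N⌉ := le_trans (by linarith [hx.1]) (Int.le_ceil N)
      have h5 : ((-x : ℤ) : ℝ) ≤ ((⌈N⌉ : ℤ) : ℝ) := by push_cast; exact this
      have h6 : -x ≤ ⌈N⌉ := by exact_mod_cast h5
      omega
    · have h5 : (x : ℝ) ≤ ((⌈N⌉ : ℤ) : ℝ) := le_trans hx.2 (Int.le_ceil N)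
      exact_mod_cast h5
  refine ⟨conv _ ?_, conv _ ?_, conv _ ?_, conv _ ?_⟩
  · exact abs_le.2 ⟨by linarith [h11.1, h22.1], by linarith [h11.2, h22.2]⟩
  · exact key _ (by linarith [h11.1, h22.2]) (by linarith [h11.2, h22.1])
  · exact abs_le.2 ⟨by linarith [h12.1, h21.2], by linarith [h12.2, h21.1]⟩
  · exact key _ (by linarith [h12.1, h21.1]) (by linarith [h12.2, h21.2])

theorem discT : StMob → StW → StAc → StDisc := by
  intro hM hW hA K hK hKO
  obtain ⟨m0, hm0, hlow⟩ := hK.exists_forall_le' (f := fun z => (W z).im) (a := 0)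
    (Complex.continuous_im.comp disc_W_cont).continuousOn (fun z hz => (hW.2.2.1 z (hKO hz)).1)
  obtain ⟨C1, hC1⟩ := hK.exists_bound_of_continuousOn (f := W) disc_W_cont.continuousOn
  set C0 : ℝ := max C1 1 with hC0
  have hup : ∀ z ∈ K, ‖W z‖ ≤ C0 := fun z hz => (hC1 z hz).trans (le_max_left _ _)
  have hC0p : 1 ≤ C0 := le_max_right _ _
  set R1 : ℝ := C0 / m0 + 1 with hR1
  have hQ : 0 ≤ C0 / m0 := by positivity
  set R2 : ℝ := C0 * R1 with hR2
  have hR1p : 1 ≤ R1 := by linarith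
  have hR12 : R1 ≤ R2 := by nlinarith
  refine (disc_fin (R2 / m0 * (C0 + 1) + R2)).subset ?_
  rintro γ ⟨x, ⟨z, hz, rfl⟩, hx⟩
  have hw := (hW.2.2.1 z (hKO hz)).1
  have hac := hA.1 γ z (hKO hz)
  have h1 := hM.1 γ (W z) hw
  have hw' : W (ac γ z) = mob γ (W z) := hac.2.1
  set w : ℂ := W z with hwdef
  set D : ℂ := (m21 γ : ℂ) * w + m22 γ with hD
  have hD0 : D ≠ 0 := h1.1
  have him : (mob γ w).im = w.im / Complex.normSq D := h1.2.1
  have hl1 : m0 ≤ w.im := hlow z hz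
  have hl2 : m0 ≤ (mob γ w).im := by rw [← hw']; exact hlow _ hx
  have hu1 : ‖w‖ ≤ C0 := hup z hz
  have hu2 : ‖mob γ w‖ ≤ C0 := by rw [← hw']; exact hup _ hx
  have hnp : 0 < Complex.normSq D := Complex.normSq_pos.2 hD0
  have hwim : w.im ≤ C0 := (Complex.im_le_norm w).trans hu1
  have hns : Complex.normSq D ≤ C0 / m0 := by
    rw [le_div_iff₀ hm0]
    have : m0 * Complex.normSq D ≤ w.im := by
      rw [him, le_div_iff₀ hnp] at hl2
      exact hl2
    linarith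
  have hDn : ‖D‖ ≤ R1 := by
    have h2 : ‖D‖ ^ 2 ≤ C0 / m0 := by rw [← Complex.normSq_eq_norm_sq]; exact hns
    nlinarith [norm_nonneg D]
  have hnum : (m11 γ : ℂ) * w + m12 γ = mob γ w * D := by
    unfold mob
    rw [← hD]
    field_simp
  have hNn : ‖(m11 γ : ℂ) * w + m12 γ‖ ≤ R2 := by
    rw [hnum, norm_mul]
    exact mul_le_mul hu2 hDn (norm_nonneg _) (by linarith)
  have gen : ∀ (p r S : ℝ), 0 ≤ S → ‖(p : ℂ) * w + r‖ ≤ S →
      |p| ≤ S / m0 ∧ |r| ≤ S / m0 * C0 + S := by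
    intro p r S hS h
    have hi : |p| * w.im ≤ S := by
      have h2 := Complex.abs_im_le_norm ((p : ℂ) * w + r)
      have h3 : ((p : ℂ) * w + r).im = p * w.im := by simp
      rw [h3, abs_mul, abs_of_pos hw] at h2
      linarith
    have hp : |p| ≤ S / m0 := by
      rw [le_div_iff₀ hm0]
      nlinarith [abs_nonneg p]
    refine ⟨hp, ?_⟩
    have h2 := Complex.abs_re_le_norm ((p : ℂ) * w + r)
    have h3 : ((p : ℂ) * w + r).re = p * w.re + r := by simp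
    rw [h3] at h2
    have h4 : |w.re| ≤ C0 := (Complex.abs_re_le_norm w).trans hu1
    have h5 : |r| ≤ |p * w.re + r| + |p * w.re| := by
      have := abs_sub (p * w.re + r) (p * w.re)
      simpa using this
    have h6 : |p * w.re| ≤ S / m0 * C0 := by
      rw [abs_mul]
      exact mul_le_mul hp h4 (abs_nonneg _) (by positivity)
    linarith
  obtain ⟨g1, g2⟩ := gen _ _ R1 (by linarith) hDn
  obtain ⟨g3, g4⟩ := gen _ _ R2 (by linarith) hNn
  have hle : R1 / m0 ≤ R2 / m0 := div_le_div_of_nonneg_right hR12 hm0.le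
  have hp2 : 0 ≤ R2 / m0 := by positivity
  have hp3 : 0 ≤ R2 / m0 * C0 := by positivity
  refine ⟨?_, ?_, ?_, ?_⟩
  · linarith
  · linarith
  · linarith
  · have : R1 / m0 * C0 ≤ R2 / m0 * C0 := mul_le_mul_of_nonneg_right hle (by linarith)
    linarith

end Pool.Agent.Y837.EX
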